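import Pool.Agent.S02219

set_option autoImplicit false

open FreeGroup

namespace Pool.Agent.Results.MP_8bc403_al.OwnStatement

variable {G : Type} [Group G]

/-- the element of `G` represented by a word in the letters `x`, `x⁻¹`, `x ∈ X` (the letter
`(x, true)` stands for `x`, the letter `(x, false)` for `x⁻¹`) -/
def val {X : Finset G} (w : List (X × Bool)) : G :=
  (w.map fun l => if l.2 then (l.1 : G) else (l.1 : G)⁻¹).prod

/-- `g` is a palindrome with respect to `X`: it is represented by a reduced word in `X^{±1}` that
reads the same from left to right and from right to left (`FreeGroup.IsReduced`: no letter is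
followed by its inverse letter) -/
def IsPalindrome (X : Finset G) (g : G) : Prop :=
  ∃ w : List (X × Bool), IsReduced w ∧ w.reverse = w ∧ val w = g

/-- the palindromic length of `g`: the least number of palindromes whose product is `g`
(`⊤` if there is none) -/
noncomputable def palLength (X : Finset G) (g : G) : ℕ∞ :=
  ⨅ ps : {ps : List G // (∀ p ∈ ps, IsPalindrome X p) ∧ ps.prod = g}, (ps.1.length : ℕ∞)

/-- the palindromic width of `G` with respect to `X` -/
noncomputable def palWidth (X : Finset G) : ℕ∞ := ⨆ g : G, palLength X g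

lemma val_step {X : Finset G} {L M : List (X × Bool)} (h : Red.Step L M) : val L = val M := by
  obtain ⟨⟩ := h
  rename_i L₁ L₂ x b
  unfold val
  simp only [List.map_append, List.map_cons, List.prod_append, List.prod_cons]
  cases b <;> simp

lemma val_red {X : Finset G} {L M : List (X × Bool)} (h : Red L M) : val L = val M := by
  induction h with
  | refl => rfl
  | tail _ h ih => exact ih.trans (val_step h)

lemma step_reverse {α : Type} {L M : List (α × Bool)} (h : Red.Step L M) :
    Red.Step L.reverse M.reverse := by
  obtain ⟨⟩ := h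
  rename_i L₁ L₂ x b
  have : (L₁ ++ (x, b) :: (x, !b) :: L₂).reverse = L₂.reverse ++ (x, !b) :: (x, b) :: L₁.reverse := by
    simp
  rw [this, List.reverse_append]
  have h2 := @Red.Step.not α L₂.reverse L₁.reverse x (!b)
  rwa [Bool.not_not] at h2

lemma red_reverse {α : Type} {L M : List (α × Bool)} (h : Red L M) :
    Red L.reverse M.reverse := by
  induction h with
  | refl => exact Relation.ReflTransGen.refl
  | tail _ h ih => exact ih.tail (step_reverse h)

open Classical in
/-- a not necessarily reduced palindromic word represents a palindrome -/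
lemma isPalindrome_of_word {X : Finset G} {w : List (X × Bool)} (hw : w.reverse = w) :
    IsPalindrome X (val w) := by
  refine ⟨reduce w, IsReduced.of_reduce_eq reduce.idem, ?_, (val_red reduce.red).symm⟩
  have h1 : Red w (reduce w).reverse := by
    have := red_reverse (reduce.red (L := w))
    rwa [hw] at this
  have h2 : reduce w = reduce (reduce w).reverse := reduce.eq_of_red h1
  have h3 : Red (reduce w).reverse (reduce w) := by
    conv_rhs => rw [h2]
    exact reduce.red
  have h4 := red_reverse h3
  rw [List.reverse_reverse] at h4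
  exact (reduce.min h4).symm

open Classical in
/-- palindromes in the sense of lists of group elements are palindromes -/
lemma isPalindrome_of_list {X : Finset G} {v : List G} (hv : ∀ x ∈ v, x ∈ X ∨ x⁻¹ ∈ X)
    (hrev : v.reverse = v) : IsPalindrome X v.prod := by
  rcases X.eq_empty_or_nonempty with rfl | ⟨x0, hx0⟩
  · have : v = [] := by
      rcases v with _ | ⟨a, l⟩
      · rfl
      · have := hv a (by simp)
        simp at this
    subst this
    exact ⟨[], by simp, rfl, rfl⟩
  let lt : G → X × Bool := fun g => if h : g ∈ X then (⟨g, h⟩, true) else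
    if h : g⁻¹ ∈ X then (⟨g⁻¹, h⟩, false) else (⟨x0, hx0⟩, true)
  have hval : val (v.map lt) = v.prod := by
    unfold val
    rw [List.map_map]
    congr 1
    conv_rhs => rw [← List.map_id v]
    refine List.map_congr_left fun x hx => ?_
    rcases hv x hx with h | h
    · simp [lt, h]
    · by_cases h2 : x ∈ X
      · simp [lt, h2]
      · simp [lt, h, h2]
  rw [← hval]
  refine isPalindrome_of_word ?_
  rw [← List.map_reverse, hrev]

/-- palindromes are products of palindromic lists of group elements -/
lemma list_of_isPalindrome {X : Finset G} {p : G} (hp : IsPalindrome X p) :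
    ∃ v : List G, (∀ x ∈ v, x ∈ X ∨ x⁻¹ ∈ X) ∧ v.reverse = v ∧ v.prod = p := by
  obtain ⟨w, _, hrev, rfl⟩ := hp
  refine ⟨w.map fun l => if l.2 then (l.1 : G) else (l.1 : G)⁻¹, ?_, ?_, rfl⟩
  · intro x hx
    obtain ⟨⟨y, b⟩, _, rfl⟩ := List.mem_map.1 hx
    cases b
    · right
      simp
    · left
      simp
  · rw [← List.map_reverse, hrev]

/-- There is a group `G` with two finite generating sets `X`, `Y` such that the palindromic width
of `G` with respect to `X` is finite and the palindromic width with respect to `Y` is infinite. -/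
theorem result : ∃ (G : Type) (_ : Group G) (X Y : Finset G),
    Subgroup.closure (X : Set G) = ⊤ ∧ Subgroup.closure (Y : Set G) = ⊤ ∧
      palWidth X < ⊤ ∧ palWidth Y = ⊤ := by
  obtain ⟨G, hG, X, Y, hX, hY, ⟨N, hN⟩, hno⟩ := Pool.Agent.S02219.result
  refine ⟨G, hG, X, Y, hX, hY, ?_, ?_⟩
  · refine lt_of_le_of_lt (b := (N : ℕ∞)) (iSup_le fun g => ?_) (ENat.coe_lt_top N)
    obtain ⟨ps, h1, h2, h3⟩ := hN g
    refine iInf_le_of_le ⟨ps, fun p hp => ?_, h2⟩ (by exact_mod_cast h1)
    obtain ⟨v, hv1, hv2, rfl⟩ := h3 p hp
    exact isPalindrome_of_list hv1 hv2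
  · by_contra hne
    apply hno
    obtain ⟨N, hN⟩ := ENat.ne_top_iff_exists.1 hne
    refine ⟨N, fun g => ?_⟩
    have h1 : palLength Y g ≤ (N : ℕ∞) := by
      rw [hN]
      exact le_iSup (fun g => palLength Y g) g
    have h2 : palLength Y g < ((N + 1 : ℕ) : ℕ∞) := lt_of_le_of_lt h1 (by exact_mod_cast Nat.lt_succ_self N)
    obtain ⟨⟨ps, h3, h4⟩, h5⟩ := iInf_lt_iff.1 h2
    refine ⟨ps, ?_, h4, fun p hp => list_of_isPalindrome (h3 p hp)⟩
    have : ps.length < N + 1 := by exact_mod_cast h5
    omega

end Pool.Agent.Results.MP_8bc403_al.OwnStatement
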